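import Pool.Agent.U9.LT.Main
import Pool.Agent.W13.LM.Scale

set_option autoImplicit false

/-! # MP_0ea415_nt: codes which are desubstituted infinitely often, and substitutions of class `P`

Let `α = a₀ + 1 / (b 1 - 1 / (b 2 - ...))` be the backward continued fraction of `α`, with
remainders `D k = q k α - p k`, and let `β = ∑ x k * D k` be a digit expansion with bounded digits;
the pair `(α, β)` has the code `(b k, x k)`.  By the starting result `MirrorCodes` Littlewood's
conjecture holds for `(α, β)` if the code contains arbitrarily long mirror symmetric words.  Here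
large classes of codes given by substitutions are shown to contain such words.

* General theorem: `S`-adic codes.  The letters of an infinite word `y 0` determine the code; `y 0`
  is built from `y 1` by the substitution `S 0`, `y 1` from `y 2` by `S 1`, and so on (only finite
  words are considered: the image of a word which occurs in `y (n + 1)` occurs in `y n`, so all
  words with the same finite factors are allowed).  The alphabets `A n` are arbitrary sets with
  involutions `θ n`.  Each `S n` commutes with taking mirror images up to conjugation by a word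
  `p n`: `p · mirror (S b) = S (θ b) · p`, where the mirror image on the level `n` changes the letters
  by `θ n`.  If on some levels there are mirror symmetric words with arbitrarily long images in
  `y 0` (for `θ n = id` the single letters are mirror symmetric), then the Littlewood conjecture
  holds for the pair and for all pairs `(u + v α, u' + v' β)` with rational coefficients.
* Every fixed point of a substitution `S a = p · q a` with palindromes `p`, `q a` (class `P` of Hof,
  Knill and Simon) and `|S a| ≥ 2`: for instance the Thue-Morse word (`a ↦ abba`, `b ↦ baab`), which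
  contains no overlaps, so that no theorem on repetitions applies, and the period doubling word.
* Every standard episturmian word over any alphabet (standard Arnoux-Rauzy words): for every
  sequence `c n` of letters which is not eventually constant, and the morphisms `L c`, `c ↦ c`,
  `b ↦ c b` for `b ≠ c`. -/

namespace Pool.Agent.Results.MP_0ea415_nt.MirrorSubstitutions

open Pool.Agent.U9.LT

/-- Littlewood's conjecture for the pair `(α, β)` (the form of the frozen statement). -/
def Littlewood (α β : ℝ) : Prop :=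
  ∀ ε : ℝ, 0 < ε → ∀ N : ℕ, ∃ q : ℕ, N ≤ q ∧ 0 < q ∧
    (q : ℝ) * |(q : ℝ) * α - (round ((q : ℝ) * α) : ℝ)|
      * |(q : ℝ) * β - (round ((q : ℝ) * β) : ℝ)| < ε

/-- `α = a₀ + 1 / (b 1 - 1 / (b 2 - ...))` with denominators `q k` and remainders
`D k = q k α - p k`, `1 = D 0 > D 1 > D 2 > ... > 0`. -/
structure Backward (α : ℝ) (a₀ : ℤ) (b q : ℕ → ℤ) (D : ℕ → ℝ) : Prop where
  D_zero : D 0 = 1
  D_one : D 1 = α - a₀
  D_rec : ∀ k, D (k + 2) = b (k + 1) * D (k + 1) - D k
  D_pos : ∀ k, 0 < D (k + 1)
  D_lt : ∀ k, D (k + 1) < D k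
  q_zero : q 0 = 0
  q_one : q 1 = 1
  q_rec : ∀ k, q (k + 2) = b (k + 1) * q (k + 1) - q k

/-- The pair has the code `(b k, x k)`: `b` are the partial quotients of the backward continued
fraction of `α`, and `β = ∑ x k * D k` with bounded digits. -/
def HasCode (α β : ℝ) (c : ℕ → ℤ × ℤ) : Prop :=
  ∃ (a₀ : ℤ) (q : ℕ → ℤ) (D : ℕ → ℝ), Backward α a₀ (fun k => (c k).1) q D ∧
    (∃ B : ℝ, ∀ k, |((c k).2 : ℝ)| ≤ B) ∧ β = ∑' k, ((c k).2 : ℝ) * D k

/-- Littlewood's conjecture for all pairs of rational affine functions of `α` and `β`. -/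
def LittlewoodRat (α β : ℝ) : Prop :=
  ∀ u v u' v' : ℚ, Littlewood (u + v * α) (u' + v' * β)

theorem result :
    -- codes which are desubstituted infinitely often
    (∀ (A : ℕ → Type) (θ : ∀ n, A n → A n) (S : ∀ n, A (n + 1) → List (A n))
      (p : ∀ n, List (A n)) (y : ∀ n, ℕ → A n),
      (∀ n, Compatible (θ n) (θ (n + 1)) (S n) (p n)) →
      (∀ n w, Occurs (y (n + 1)) w → Occurs (y n) (w.flatMap (S n))) →
      (∀ L : ℕ, ∃ (n : ℕ) (w : List (A n)), Occurs (y n) w ∧ mir (θ n) w = w ∧
        L ≤ (down S n w).length) →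
      ∀ (f : A 0 → ℤ × ℤ) (σ : ℤ), (σ = 1 ∨ σ = -1) →
        (∀ a, f (θ 0 a) = ((f a).1, σ * (f a).2)) →
        ∀ α β : ℝ, HasCode α β (fun k => f (y 0 k)) → LittlewoodRat α β) ∧
    -- fixed points of substitutions of class `P`
    (∀ (A : Type) (S : A → List A) (p : List A) (q : A → List A), p.reverse = p →
      (∀ a, (q a).reverse = q a ∧ S a = p ++ q a) → (∀ a, 2 ≤ (S a).length) →
      ∀ y : ℕ → A, IsImage S y y → ∀ (f : A → ℤ × ℤ) (α β : ℝ),
        HasCode α β (fun k => f (y k)) → LittlewoodRat α β) ∧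
    -- standard episturmian words
    (∀ (A : Type) (_ : DecidableEq A) (c : ℕ → A) (y : ℕ → ℕ → A),
      (∀ n, IsImage (Lm (c n)) (y (n + 1)) (y n)) → (∀ n, ∃ m, n < m ∧ c m ≠ c n) →
      ∀ (f : A → ℤ × ℤ) (α β : ℝ), HasCode α β (fun k => f (y 0 k)) → LittlewoodRat α β) := by
  have key : ∀ (A : Type) (y : ℕ → A) (θ : A → A) (f : A → ℤ × ℤ) (σ : ℤ), (σ = 1 ∨ σ = -1) →
      (∀ a, f (θ a) = ((f a).1, σ * (f a).2)) →
      (∀ L : ℕ, ∃ u : List A, Occurs y u ∧ mir θ u = u ∧ L ≤ u.length) →
      ∀ α β : ℝ, HasCode α β (fun k => f (y k)) → LittlewoodRat α β := by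
    rintro A y θ f σ hσ hf h α β ⟨a₀, q, D, E, ⟨B, hB⟩, rfl⟩ u v u' v'
    have E' : Pool.Agent.W13.LM.Exp α a₀ (fun k => (f (y k)).1) q D :=
      ⟨E.D_zero, E.D_one, E.D_rec, E.D_pos, E.D_lt, E.q_zero, E.q_one, E.q_rec⟩
    exact (lc_of_pal E' (fun k => (f (y k)).2) B hB y θ f σ hσ hf (fun _ => rfl) h).rat u v u' v'
  refine ⟨?_, ?_, ?_⟩
  · intro A θ S p y hc hy hg f σ hσ hf
    refine key (A 0) (y 0) (θ 0) f σ hσ hf fun L => ?_
    obtain ⟨n, w, h1, h2, h3⟩ := hg L
    obtain ⟨u, h4, h5, h6⟩ := exists_pal hc hy n w h1 h2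
    exact ⟨u, h4, h5, h3.trans h6⟩
  · intro A S p q hp hq h2 y hy f
    refine key A y id f 1 (Or.inl rfl) (fun a => ?_) (fixed_pal S p q hp hq h2 y hy)
    rw [one_mul]
    rfl
  · intro A _ c y hy hc f
    refine key A (y 0) id f 1 (Or.inl rfl) (fun a => ?_) (epi_pal c y hy hc)
    rw [one_mul]
    rfl

end Pool.Agent.Results.MP_0ea415_nt.MirrorSubstitutions
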