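import Pool.Agent.U9.LT.Cubes
import Pool.Agent.H389R2.LC.Cx

set_option autoImplicit false

/-! # MP_0ea415_nt: digits and codes with few aligned blocks, automata with three states, and
substitutions

The starting results `QuadraticRepetitions` and `RepetitiveCodes` prove Littlewood's conjecture for
pairs with certain repetitions: of exponent above `3/2` if `α` is a quadratic number and `β` is given
by its digits in base a unit of the field of `α`, and of exponent above `3` (up to an additive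
constant) in the code of an arbitrary pair.  Here these repetitions are found in large classes of
sequences.

`α` quadratic, `β = ∑ d k * ε ^ (-k)` with bounded integer digits `d k`:

1. Suppose that for some `C` there are arbitrarily large `L` for which at most three of the eleven
   consecutive blocks `d (s + L j), …, d (s + L j + L - 1)`, `j = 0, …, 10`, are different, for some
   `s ≤ C L`.  Then `q ^ (1 + η) ‖qα‖ ‖qβ‖ < 1` for some `η > 0` and infinitely many `q`.  Without
   the bound for `s` Littlewood's conjecture holds for `(α, β)`.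
2. In particular there is such a power saving if `d k = f (y k)` where `y` is generated by a
   `k`-automaton with three states, which reads the most significant digit first, and `f` is any
   function.  (Four states are not covered: there are words over four letters without
   repetitions of exponent `≥ 3/2`.)
3. Let `y 0` be obtained from `y 1` by a substitution `S 0`, `y 1` from `y 2` by `S 1`, and so on.
   Littlewood's conjecture holds for `(α, β)`, `d k = f (y 0 k)`, if some levels contain words `u g`,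
   `g` a prefix of `u g`, with images of lengths `2 |down g| - |down u|` tending to infinity.  This is
   so if there are infinitely many levels with only two letters whose images are long; so
   it holds for all fixed points of growing substitutions over two letters.

`α` arbitrary, `β = ∑ x k * (q_{k-1} α - p_{k-1})` with bounded digits (`pq` are the partial quotients of
`α`, `num`, `den` the convergents):

4. Littlewood's conjecture holds if `(pq (k + 1), x (k + 1)) = f (y 0 k)` with `y 0` as in 3 and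
   some levels contain a word `u u u g`, `g` a prefix of `u g`, for which the length of the image of
   `g` tends to infinity.  So one word `u u u a`, `a` the first letter of `u`, is sufficient if `y` is
   a fixed point of a growing substitution. -/

namespace Pool.Agent.Results.MP_0ea415_nt.RepetitiveSubstitutions

open Pool.Agent.U9.LT

/-- Littlewood's conjecture for the pair `(α, β)` (the form of the frozen statement). -/
def Littlewood (α β : ℝ) : Prop :=
  ∀ η : ℝ, 0 < η → ∀ N : ℕ, ∃ q : ℕ, N ≤ q ∧ 0 < q ∧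
    (q : ℝ) * |(q : ℝ) * α - (round ((q : ℝ) * α) : ℝ)|
      * |(q : ℝ) * β - (round ((q : ℝ) * β) : ℝ)| < η

/-- `q^{1+η} ‖qα‖ ‖qβ‖ < 1` for some `η > 0` and arbitrarily large `q`. -/
def PowerSaving (α β : ℝ) : Prop :=
  ∃ η : ℝ, 0 < η ∧ ∀ N : ℕ, ∃ q : ℕ, N ≤ q ∧ 0 < q ∧
    (q : ℝ) ^ (1 + η) * |(q : ℝ) * α - (round ((q : ℝ) * α) : ℝ)|
      * |(q : ℝ) * β - (round ((q : ℝ) * β) : ℝ)| < 1

/-- `α` is a rational affine function of the unit `ε > 1` with `ε² - tε + 1 = 0`, `t ≥ 3` (every
real quadratic irrational is of this form), and `β = ∑ d k * ε ^ (-k)` with bounded digits. -/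
def QuadDigits (α β : ℝ) (d : ℕ → ℤ) : Prop :=
  ∃ (t : ℤ) (ε : ℝ), 3 ≤ t ∧ 1 < ε ∧ ε ^ 2 - t * ε + 1 = 0 ∧ (∃ a b : ℚ, α = a + b * ε) ∧
    (∃ B : ℤ, ∀ k, |d k| ≤ B) ∧ β = ∑' k : ℕ, (d k : ℝ) * ε⁻¹ ^ k

/-- `α` is irrational with the partial quotients `(c k).1` (of index `k + 1`), and
`β = ∑ x k * (q_{k-1} α - p_{k-1})` with bounded digits `x`, `x (k + 1) = (c k).2`. -/
def HasCode (α β : ℝ) (c : ℕ → ℤ × ℤ) : Prop :=
  Irrational α ∧ ∃ x : ℕ → ℤ, (∃ X : ℝ, ∀ k, |(x k : ℝ)| ≤ X) ∧
    HasSum (fun k => (x k : ℝ) * ((H380R2.LC.den α k : ℝ) * α - H380R2.LC.num α k)) β ∧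
    ∀ k, c k = (H380R2.LC.pq α (k + 1), x (k + 1))

/-- the blocks of length `L` of `d` at the places `s`, `s + L`, …, `s + 10 L`: at most three of them
are different -/
def ThreeBlocks (d : ℕ → ℤ) (L s : ℕ) : Prop :=
  ((fun j => fun i : Fin L => d (s + L * j + i)) '' Set.Iio 11).ncard ≤ 3

theorem result :
    -- three blocks
    (∀ (α β : ℝ) (d : ℕ → ℤ), QuadDigits α β d →
      ((∀ K : ℕ, ∃ L s, K ≤ L ∧ ThreeBlocks d L s) → Littlewood α β) ∧
      ((∃ C : ℕ, ∀ K : ℕ, ∃ L s, K ≤ L ∧ s ≤ C * L ∧ ThreeBlocks d L s) → PowerSaving α β)) ∧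
    -- automata with three states
    (∀ (k : ℕ) (δ : Fin 3 → ℕ → Fin 3) (y : ℕ → Fin 3), 2 ≤ k →
      (∀ j i, i < k → y (k * j + i) = δ (y j) i) → ∀ (f : Fin 3 → ℤ) (α β : ℝ),
        QuadDigits α β (fun n => f (y n)) → PowerSaving α β) ∧
    -- substitutions
    (∀ (A : ℕ → Type) (S : ∀ n, A (n + 1) → List (A n)) (y : ∀ n, ℕ → A n),
      (∀ n w, Occurs (y (n + 1)) w → Occurs (y n) (w.flatMap (S n))) →
      (∀ (f : A 0 → ℤ) (α β : ℝ), QuadDigits α β (fun k => f (y 0 k)) →
        ((∀ K : ℕ, ∃ (n : ℕ) (u g : List (A n)), Occurs (y n) (u ++ g) ∧ g <+: u ++ g ∧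
          0 < (down S n u).length ∧ (down S n u).length + K ≤ 2 * (down S n g).length) →
            Littlewood α β) ∧
        ((∀ K : ℕ, ∃ n : ℕ, (y n '' Set.Iio 4).ncard ≤ 2 ∧
          ∀ j < 4, K ≤ (down S n [y n j]).length) → Littlewood α β)) ∧
      (∀ (f : A 0 → ℤ × ℤ) (α β : ℝ), HasCode α β (fun k => f (y 0 k)) →
        (∀ K : ℕ, ∃ (n : ℕ) (u g : List (A n)), Occurs (y n) (u ++ (u ++ u ++ g)) ∧
          g <+: u ++ g ∧ 0 < (down S n u).length ∧ K ≤ (down S n g).length) →
            Littlewood α β)) := by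
  -- the two criteria
  have quad : ∀ (α β : ℝ) (d : ℕ → ℤ), QuadDigits α β d →
      ((∀ K : ℕ, ∃ s ℓ n : ℕ, 0 < ℓ ∧ ℓ + K ≤ 2 * n ∧ ∀ k, s ≤ k → k < s + n →
        d (k + ℓ) = d k) → Littlewood α β) ∧
      ((∃ κ : ℝ, 0 < κ ∧ ∀ K : ℕ, ∃ s ℓ n : ℕ, 0 < ℓ ∧ K ≤ n ∧
          (ℓ : ℝ) + κ * (s + n) ≤ 2 * n ∧ ∀ k, s ≤ k → k < s + n → d (k + ℓ) = d k) →
            PowerSaving α β) := by
    rintro α β d ⟨t, ε, ht, h1, hq, ⟨a, b, hα⟩, ⟨B, hB⟩, hβ⟩
    have hb : H389R2.LC.Base t ε := ⟨ht, h1, hq⟩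
    have hBr : ∀ k, |(d k : ℝ)| ≤ (B : ℝ) := by
      intro k
      have := hB k
      exact_mod_cast this
    have hc : 0 < a.den * b.den := Nat.mul_pos a.den_pos b.den_pos
    have hαc : ((a.den * b.den : ℕ) : ℝ) * α
        = ((a.num * b.den : ℤ) : ℝ) + ((b.num * a.den : ℤ) : ℝ) * ε := by
      have ha : (a.den : ℝ) * (a : ℝ) = a.num := by
        have := Rat.mul_den_eq_num a
        have h2 : ((a * a.den : ℚ) : ℝ) = ((a.num : ℚ) : ℝ) := by rw [this]
        push_cast at h2
        linarith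
      have hb' : (b.den : ℝ) * (b : ℝ) = b.num := by
        have := Rat.mul_den_eq_num b
        have h2 : ((b * b.den : ℚ) : ℝ) = ((b.num : ℚ) : ℝ) := by rw [this]
        push_cast at h2
        linarith
      rw [hα]
      push_cast
      linear_combination (b.den : ℝ) * ha + (a.den : ℝ) * ε * hb'
    have hps : ∀ {η : ℝ} {q : ℕ}, 0 < q → (q : ℝ) ^ η * H389R2.LC.L α β q < 1 →
        (q : ℝ) ^ (1 + η) * |(q : ℝ) * α - (round ((q : ℝ) * α) : ℝ)|
          * |(q : ℝ) * β - (round ((q : ℝ) * β) : ℝ)| < 1 := by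
      intro η q hq h
      have hq' : (0 : ℝ) < q := by exact_mod_cast hq
      rw [Real.rpow_add hq', Real.rpow_one]
      unfold H389R2.LC.L at h
      calc _ = (q : ℝ) ^ η * ((q : ℝ) * |(q : ℝ) * α - (round ((q : ℝ) * α) : ℝ)|
            * |(q : ℝ) * β - (round ((q : ℝ) * β) : ℝ)|) := by ring
        _ < 1 := h
    refine ⟨fun h => ?_, ?_⟩
    · refine H389R2.LC.rep_LC hb α β _ _ _ hc hαc d B hBr hβ fun K => ?_
      obtain ⟨s, ℓ, n, h2, h3, h4⟩ := h K
      exact ⟨s, ℓ, n, h2, h3, 1, Or.inl rfl, fun k h5 h6 => by rw [h4 k h5 h6, one_mul]⟩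
    · rintro ⟨κ, hκ, h⟩
      obtain ⟨η, hη, h2⟩ := H389R2.LC.rep_rate hb α β _ _ _ hc hαc d B hBr hβ κ hκ (by
        intro K
        obtain ⟨s, ℓ, n, h2, h3, h4, h5⟩ := h K
        exact ⟨s, ℓ, n, h2, h3, h4, 1, Or.inl rfl, fun k h6 h7 => by rw [h5 k h6 h7, one_mul]⟩)
      refine ⟨η, hη, fun N => ?_⟩
      obtain ⟨q, h3, h4, h5⟩ := h2 N
      exact ⟨q, h3, h4, hps h4 h5⟩
  have blocks : ∀ (α β : ℝ) (d : ℕ → ℤ), QuadDigits α β d →
      (∃ C : ℕ, ∀ K : ℕ, ∃ L s, K ≤ L ∧ s ≤ C * L ∧ ThreeBlocks d L s) → PowerSaving α β := by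
    rintro α β d hd ⟨C, h⟩
    refine (quad α β d hd).2 ⟨1 / (C + 11), by positivity, fun K => ?_⟩
    obtain ⟨L, s, hK, hs, hb⟩ := h (K + 1)
    obtain ⟨t, r, m, h1, h2, h3, h4⟩ := blocks_rep d L s hb
    have hL : 0 < L := by omega
    refine ⟨s + L * t, L * r, L * m, Nat.mul_pos hL h1, ?_, ?_, h4⟩
    · have : 1 ≤ m := by omega
      nlinarith
    · have hC : (0 : ℝ) < C + 11 := by positivity
      have h5 : ((s + L * t : ℕ) : ℝ) + ((L * m : ℕ) : ℝ) ≤ (C + 11) * L := by
        have : s + L * t + L * m ≤ (C + 11) * L := by nlinarith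
        exact_mod_cast this
      have h6 : 1 / ((C : ℝ) + 11) * (((s + L * t : ℕ) : ℝ) + ((L * m : ℕ) : ℝ)) ≤ L := by
        rw [one_div, inv_mul_le_iff₀ hC]
        exact h5
      have h7 : ((L * r : ℕ) : ℝ) + L ≤ 2 * ((L * m : ℕ) : ℝ) := by
        have : L * r + L ≤ 2 * (L * m) := by nlinarith
        exact_mod_cast this
      linarith
  refine ⟨fun α β d hd => ⟨fun h => ?_, blocks α β d hd⟩, ?_, ?_⟩
  · refine (quad α β d hd).1 fun K => ?_
    obtain ⟨L, s, hK, hb⟩ := h (K + 1)
    obtain ⟨t, r, m, h1, h2, h3, h4⟩ := blocks_rep d L s hb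
    refine ⟨s + L * t, L * r, L * m, Nat.mul_pos (by omega) h1, ?_, h4⟩
    nlinarith
  · intro k δ y hk hy f α β hd
    refine blocks α β _ hd ⟨0, fun K => ⟨k ^ K, 0, ?_, by simp, ?_⟩⟩
    · exact le_of_lt (Nat.lt_pow_self (by omega))
    · exact auto_ncard k (by omega) δ y hy f K
  · intro A S y hy
    refine ⟨fun f α β hd => ?_, ?_⟩
    · have gen : (∀ K : ℕ, ∃ (n : ℕ) (u g : List (A n)), Occurs (y n) (u ++ g) ∧ g <+: u ++ g ∧
          0 < (down S n u).length ∧ (down S n u).length + K ≤ 2 * (down S n g).length) →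
            Littlewood α β := by
        intro h
        refine (quad α β _ hd).1 fun K => ?_
        obtain ⟨n, u, g, h1, h2, h3, h4⟩ := h K
        have h5 := down_occurs hy n _ h1
        have h6 := down_prefix (S := S) n h2
        rw [down_append] at h5 h6
        obtain ⟨t, ht⟩ := occurs_rep h5 h6
        refine ⟨t, (down S n u).length, (down S n g).length, h3, h4, fun k hk1 hk2 => ?_⟩
        have h7 := ht (k - t) (by omega)
        rw [show t + (k - t) = k by omega] at h7
        exact congrArg f h7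
      refine ⟨gen, fun h => gen fun K => ?_⟩
      obtain ⟨n, h1, h2⟩ := h (K + 1)
      obtain ⟨t, u, h3, h4, h5⟩ := two_square (y n) h1
      have h6 : K + 1 ≤ (down S n u).length := by
        obtain ⟨v, w, hvw⟩ := List.append_of_mem h4
        have h7 := h2 t h5
        rw [hvw, show v ++ y n t :: w = v ++ ([y n t] ++ w) by rfl, down_append, down_append,
          List.length_append, List.length_append]
        omega
      exact ⟨n, u, u, h3, List.prefix_append _ _, by omega, by omega⟩
    · rintro f α β ⟨hα, x, ⟨X, hX⟩, hβ, hc⟩ h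
      refine digits_cubes α β hα x X hX hβ fun s => ?_
      obtain ⟨n, u, g, h1, h2, h3, h4⟩ := h s
      have h5 := down_occurs hy n _ h1
      have h2' : u ++ u ++ g <+: u ++ (u ++ u ++ g) := by
        obtain ⟨v, hv⟩ := h2
        refine ⟨v, ?_⟩
        rw [List.append_assoc, List.append_assoc, hv]
        simp
      have h6 := down_prefix (S := S) n h2'
      rw [down_append n u (u ++ u ++ g)] at h5 h6
      obtain ⟨t, ht⟩ := occurs_rep h5 h6
      refine ⟨(down S n u).length, t, 1, h3, Or.inl rfl, fun k hk1 hk2 => ?_⟩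
      have h7 := ht (k - (t + 1)) (by
        rw [down_append, down_append, List.length_append, List.length_append]
        omega)
      rw [show t + (k - (t + 1)) = k - 1 by omega] at h7
      have h8 := congrArg f h7
      have hc' : ∀ k, f (y 0 k) = (H380R2.LC.pq α (k + 1), x (k + 1)) := hc
      rw [hc', hc', show k - 1 + (down S n u).length + 1 = k + (down S n u).length by omega,
        show k - 1 + 1 = k by omega] at h8
      exact ⟨congrArg Prod.fst h8, by rw [one_mul]; exact congrArg Prod.snd h8⟩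

end Pool.Agent.Results.MP_0ea415_nt.RepetitiveSubstitutions
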