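import Mathlib
import Pool.Agent.U787.LB4

/-! # MP_0ea415_nt: six values of `q ⟨qα⟩ ⟨qβ⟩`

For integer points `x 1, ..., x m` of `ℤ ^ 3` let `JointLimits α β x` be the set of the limits of
the vectors `(|q 1| ⟨q 1 α⟩ ⟨q 1 β⟩, ..., |q m| ⟨q m α⟩ ⟨q m β⟩)`, where `(q k, p k, r k) = γ x k`,
`γ` is integral of determinant `±1`, and `|q k| → ∞`, `q k α - p k → 0`, `q k β - r k → 0`.
The points are free if the derivative of `h ↦ (F (x 1), ..., F (x m)) / det h` is surjective at some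
`h`, where `F` is the product of the forms given by the rows of `h`.

1. If `(α, β)` is a counterexample to Littlewood's conjecture and the `x k` are free, then
   `JointLimits α β x` contains a nonempty closed set `T` of vectors with positive entries such that:
   an analytic function on a connected open set which meets `T` is zero if it is zero on `T`; every
   open set which meets `T` contains for every countable field `K` of real numbers a vector of `T`
   with entries algebraically independent over `K`; and if `m < 3` and the `x k` are linearly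
   independent, a function of class `C^r` on an open set `V` which is zero on `V ∩ T` has all
   derivatives of order `≤ r` zero on `V ∩ T`.
2. So Littlewood's conjecture holds for `(α, β)` if `JointLimits α β x` has no other vectors with
   positive entries than those in the zero sets of countably many nonzero analytic functions.
3. The six points `e 1, e 2, e 3, e 1 + e 2, e 1 + e 3, e 2 + e 3` are free. So Littlewood's
   conjecture holds for `(α, β)` if for some countable field `K` of real numbers all vectors of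
   `JointLimits α β x`, `x` these six points, have entries which are algebraically dependent
   over `K`.
4. Six is the largest number: for `m > 6` points `x` there is a nonzero rational polynomial which is
   zero on `JointLimits α β x` for all real numbers `α` and `β`.
5. Linearly independent points, less than three, are free, and so is the basis `e 1, e 2, e 3`. The
   entries of the vectors of `JointLimits α β x` are limit points of `q ⟨qα⟩ ⟨qβ⟩`. -/

set_option autoImplicit false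

open Filter Topology

namespace Pool.Agent.Results.MP_0ea415_nt.SixValues

/-- `q ⟨qα⟩ ⟨qβ⟩` -/
noncomputable def littlewood (α β : ℝ) (q : ℕ) : ℝ :=
  (q : ℝ) * |(q : ℝ) * α - (round ((q : ℝ) * α) : ℝ)|
    * |(q : ℝ) * β - (round ((q : ℝ) * β) : ℝ)|

/-- Littlewood's conjecture for the pair `(α, β)` -/
def Littlewood (α β : ℝ) : Prop :=
  ∀ ε : ℝ, 0 < ε → ∀ N : ℕ, ∃ q : ℕ, N ≤ q ∧ 0 < q ∧ littlewood α β q < ε

/-- The limits of the vectors of the values at the first entries of `γ x 1, ..., γ x m`, where `γ`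
is integral of determinant `±1` and the points `γ x k = (q, p, r)` satisfy `|q| → ∞`,
`q α - p → 0`, `q β - r → 0`. -/
def JointLimits {m : ℕ} (α β : ℝ) (x : Fin m → Fin 3 → ℤ) : Set (Fin m → ℝ) :=
  {v | ∀ ε : ℝ, 0 < ε → ∃ γ : Matrix (Fin 3) (Fin 3) ℤ, |γ.det| = 1 ∧ ∀ k : Fin m,
    1 / ε < |((γ.mulVec (x k) 0 : ℤ) : ℝ)| ∧
    |((γ.mulVec (x k) 0 : ℤ) : ℝ) * α - ((γ.mulVec (x k) 1 : ℤ) : ℝ)| < ε ∧
    |((γ.mulVec (x k) 0 : ℤ) : ℝ) * β - ((γ.mulVec (x k) 2 : ℤ) : ℝ)| < ε ∧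
    |littlewood α β (γ.mulVec (x k) 0).natAbs - v k| < ε}

/-- the product of the linear forms given by the rows of `h`, at an integer point -/
noncomputable def F (h : Fin 3 → Fin 3 → ℝ) (x : Fin 3 → ℤ) : ℝ :=
  ∏ i : Fin 3, ∑ j : Fin 3, h i j * (x j : ℝ)

/-- The derivative of `h ↦ (F (x 1), ..., F (x m)) / det h` is surjective at some `h` with
`det h ≠ 0`. -/
def FreePoints {m : ℕ} (x : Fin m → Fin 3 → ℤ) : Prop :=
  ∃ h : Fin 3 → Fin 3 → ℝ, (Matrix.of h).det ≠ 0 ∧
    Function.Surjective (fderiv ℝ (fun (h : Fin 3 → Fin 3 → ℝ) (k : Fin m) =>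
      F h (x k) / (Matrix.of h).det) h)

/-- The points are linearly independent. -/
def Independent {m : ℕ} (x : Fin m → Fin 3 → ℤ) : Prop :=
  LinearIndependent ℝ (fun (k : Fin m) (j : Fin 3) => (x k j : ℝ))

/-- the vectors with positive entries -/
def Positive (m : ℕ) : Set (Fin m → ℝ) := {v | ∀ k, 0 < v k}

/-- the six points `e 1, e 2, e 3, e 1 + e 2, e 1 + e 3, e 2 + e 3` -/
def sixPoints : Fin 6 → Fin 3 → ℤ :=
  ![![1, 0, 0], ![0, 1, 0], ![0, 0, 1], ![1, 1, 0], ![1, 0, 1], ![0, 1, 1]]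

/-- the three points `e 1, e 2, e 3` -/
def basis : Fin 3 → Fin 3 → ℤ := ![![1, 0, 0], ![0, 1, 0], ![0, 0, 1]]

open Pool.Agent.U787

/-- the limits are no integral forms -/
lemma not_propInt {α β ν : ℝ} (hν0 : 0 < ν)
    (hν : ∀ q p r : ℤ, q ≠ 0 → ν ≤ |(q : ℝ) * (α * q - p) * (β * q - r)|)
    {h : Matrix (Fin 3) (Fin 3) ℝ} (hh : h ∈ H715R2.YY (H715R2.LLm α β)) :
    ¬ H715R2.PropInt h := by
  intro hP
  have hnu := H715R2.YY_nu hν hh
  have hdet0 : h.det ≠ 0 := by
    rw [← abs_ne_zero, H715R2.abs_det_closure (H715R2.YY_subset _ hh), H715R2.LLm_det]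
    exact one_ne_zero
  obtain ⟨A, -, hA1, -, hA2⟩ := Pool.Agent.H905R2.Opp.oppA _ (by norm_num) hdet0 hP (by
    intro p hp h0
    have h2 := hnu p hp
    rw [h0, abs_zero] at h2
    exact absurd h2 (not_le.2 hν0))
  obtain ⟨lam, hlam, hAg⟩ := Y327.eig_of_opp hdet0 hA1 hA2
  obtain ⟨K, hfin, hrank, s, hs, hmem⟩ := H715R2.exists_alg_row hdet0 A lam hlam hAg 0
  exact H715R2.no_alg_point hν0 hν hh 0 s hs K hrank hmem

lemma exists_dat {α β : ℝ} (hc : ¬ Littlewood α β) :
    ∃ (ν : ℝ) (M : Set (Matrix (Fin 3) (Fin 3) ℝ)) (g : Matrix (Fin 3) (Fin 3) ℝ),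
      LB.Dat α β ν M g ∧ M.Nonempty := by
  have hc' : ∃ ε : ℝ, 0 < ε ∧ ∃ N : ℕ, ∀ q : ℕ, N ≤ q → 0 < q → ε ≤ littlewood α β q := by
    unfold Littlewood at hc
    push Not at hc
    exact hc
  obtain ⟨ε, hε, N, hN⟩ := hc'
  obtain ⟨ν, hν0, hν⟩ := H715R2.exists_nu hε (N := N) hN
  obtain ⟨h₁, hh₁⟩ := H715R2.YY_nonempty hν0 hν
  have hdet1 : h₁.det ≠ 0 := by
    rw [← abs_ne_zero, H715R2.abs_det_closure (H715R2.YY_subset _ hh₁), H715R2.LLm_det]
    exact one_ne_zero
  have hnu1 := H715R2.YY_nu hν hh₁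
  have hint := not_propInt hν0 hν hh₁
  have hsub : closure (H715R2.Orb h₁) ⊆ H715R2.YY (H715R2.LLm α β) := by
    refine closure_minimal ?_ (H715R2.YY_closed _)
    rintro _ ⟨a, γ, ha0, ha1, hγ, rfl⟩
    exact H715R2.YY_inv _ h₁ hh₁ a γ ha0 ha1 hγ
  obtain ⟨M, hMg, hM⟩ := Y327.exists_min_closure (by norm_num) hdet1 hν0 hnu1
  exact ⟨ν, M, h₁, ⟨hν0, hMg.trans hsub, hdet1, hnu1, hint, hMg, hM,
    fun h hh => H715R2.hasNu_closure hnu1 (hMg hh)⟩, hM.ne⟩

lemma sub_JL {α β ν : ℝ} {M : Set (Matrix (Fin 3) (Fin 3) ℝ)} {g : Matrix (Fin 3) (Fin 3) ℝ}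
    (D : LB.Dat α β ν M g) {m : ℕ} {x : Fin m → Fin 3 → ℤ} (hx : ∀ k, x k ≠ 0) :
    closure (LB.AV x '' M) ⊆ JointLimits α β x := by
  refine closure_minimal ?_ (LB.isClosed_JL α β x)
  rintro _ ⟨h, hh, rfl⟩
  exact LB.joint D.hν hx (D.sub hh) (D.mnu h hh)

/-- the values are values of a product of three linear forms -/
lemma val_eq {α β : ℝ} {γ : Matrix (Fin 3) (Fin 3) ℤ} {y : Fin 3 → ℤ}
    (h1 : |((γ.mulVec y 0 : ℤ) : ℝ) * α - ((γ.mulVec y 1 : ℤ) : ℝ)| < 1 / 2)
    (h2 : |((γ.mulVec y 0 : ℤ) : ℝ) * β - ((γ.mulVec y 2 : ℤ) : ℝ)| < 1 / 2) :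
    littlewood α β (γ.mulVec y 0).natAbs = |LB.Fm (H715R2.LLm α β * H715R2.zR γ) y| := by
  have h3 : LB.Fm (H715R2.LLm α β * H715R2.zR γ) y =
      H715R2.FF (H715R2.LLm α β * H715R2.zR γ) (H715R2.iR y) := rfl
  rw [h3, H715R2.FF_mul, H715R2.zR_mulVec_iR, H715R2.FF_LLm]
  rw [mul_comm _ α] at h1
  rw [mul_comm _ β] at h2
  have h4 : littlewood α β (γ.mulVec y 0).natAbs = H715R2.fL α β (γ.mulVec y 0).natAbs := rfl
  rw [h4, H715R2.fL, H715R2.dist_round_natAbs α h1, H715R2.dist_round_natAbs β h2,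
    abs_mul, abs_mul, Nat.cast_natAbs, Int.cast_abs]

lemma det_abs (α β : ℝ) {γ : Matrix (Fin 3) (Fin 3) ℤ} (hγ : |γ.det| = 1) :
    |(H715R2.LLm α β * H715R2.zR γ).det| = 1 := by
  have h1 : (H715R2.zR γ).det = ((γ.det : ℤ) : ℝ) := by
    have := (Int.castRingHom ℝ).map_det γ
    exact this.symm
  rw [Matrix.det_mul, abs_mul, H715R2.LLm_det, one_mul, h1, ← Int.cast_abs, hγ, Int.cast_one]

lemma sharp {m : ℕ} (hm : 6 < m) (x : Fin m → Fin 3 → ℤ) :
    ∃ P : MvPolynomial (Fin m) ℚ, P ≠ 0 ∧ ∀ α β : ℝ, ∀ v ∈ JointLimits α β x,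
      MvPolynomial.aeval v P = 0 := by
  obtain ⟨P, hP, hz⟩ := LB.seven hm x
  refine ⟨P, hP, fun α β v hv => ?_⟩
  have hcp : Continuous fun v : Fin m → ℝ => MvPolynomial.aeval v P := by
    have : (fun v : Fin m → ℝ => MvPolynomial.aeval v P) =
        fun v => MvPolynomial.eval v (MvPolynomial.map (algebraMap ℚ ℝ) P) := by
      funext v
      rw [MvPolynomial.eval_map, MvPolynomial.aeval_def]
    rw [this]
    exact MvPolynomial.continuous_eval _
  have hcl : v ∈ closure {w : Fin m → ℝ | MvPolynomial.aeval w P = 0} := by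
    rw [Metric.mem_closure_iff]
    intro ε hε
    obtain ⟨γ, hγ, h⟩ := hv (min (ε / 2) (1 / 2)) (by positivity)
    refine ⟨fun k => littlewood α β (γ.mulVec (x k) 0).natAbs, ?_, ?_⟩
    · have h1 : (fun k => littlewood α β (γ.mulVec (x k) 0).natAbs) =
          fun k => |LB.Fm (H715R2.LLm α β * H715R2.zR γ) (x k)| := by
        funext k
        obtain ⟨-, h2, h3, -⟩ := h k
        exact val_eq (h2.trans_le (min_le_right _ _)) (h3.trans_le (min_le_right _ _))
      show MvPolynomial.aeval (fun k => littlewood α β (γ.mulVec (x k) 0).natAbs) P = 0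
      rw [h1]
      exact hz _ (det_abs α β hγ)
    · refine lt_of_le_of_lt ((dist_pi_le_iff (by positivity : 0 ≤ ε / 2)).2 fun k => ?_)
        (half_lt_self hε)
      obtain ⟨-, -, -, h4⟩ := h k
      rw [dist_comm, Real.dist_eq]
      exact h4.le.trans (min_le_left _ _)
  have hclosed : IsClosed {w : Fin m → ℝ | MvPolynomial.aeval w P = 0} :=
    isClosed_eq hcp continuous_const
  exact hclosed.closure_subset hcl

lemma cluster {α β : ℝ} {m : ℕ} {x : Fin m → Fin 3 → ℤ} {v : Fin m → ℝ}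
    (hv : v ∈ JointLimits α β x) (k : Fin m) : MapClusterPt (v k) atTop (littlewood α β) := by
  rw [mapClusterPt_iff_frequently]
  intro s hs
  rw [frequently_atTop]
  intro N₀
  obtain ⟨ε, hε, hball⟩ := Metric.mem_nhds_iff.1 hs
  obtain ⟨γ, -, h⟩ := hv (min ε (1 / ((N₀ : ℝ) + 1))) (by positivity)
  obtain ⟨h1, -, -, h4⟩ := h k
  refine ⟨(γ.mulVec (x k) 0).natAbs, ?_, hball ?_⟩
  · have h5 : (N₀ : ℝ) + 1 ≤ 1 / min ε (1 / ((N₀ : ℝ) + 1)) := by
      rw [le_div_iff₀ (by positivity)]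
      have h6 : min ε (1 / ((N₀ : ℝ) + 1)) ≤ 1 / ((N₀ : ℝ) + 1) := min_le_right _ _
      have h7 : ((N₀ : ℝ) + 1) * (1 / ((N₀ : ℝ) + 1)) = 1 := by field_simp
      nlinarith [mul_le_mul_of_nonneg_left h6 (by positivity : (0 : ℝ) ≤ (N₀ : ℝ) + 1)]
    have h6 : (N₀ : ℝ) < (((γ.mulVec (x k) 0).natAbs : ℕ) : ℝ) := by
      rw [Nat.cast_natAbs, Int.cast_abs]
      linarith
    exact_mod_cast h6.le
  · rw [Metric.mem_ball, Real.dist_eq]
    exact h4.trans_le (min_le_left _ _)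

lemma free_nonzero {m : ℕ} {x : Fin m → Fin 3 → ℤ} (hx : FreePoints x) (k : Fin m) : x k ≠ 0 := by
  intro h0
  obtain ⟨h, hd, hs⟩ := hx
  obtain ⟨X, hX⟩ := hs (Pi.single k 1)
  have h1 := (R503.CSD.an_ratio x (show R503.CSD.dt h ≠ 0 from hd)).differentiableAt.hasFDerivAt
  have h2 := (hasFDerivAt_pi'.1 h1) k
  have h3 : (fun h => R503.CSD.ratio x h k) = fun _ => (0 : ℝ) := by
    funext h
    rw [R503.CSD.ratio, R503.CSD.FV_eq]
    have : ∀ i, R503.CSD.lf i (x k) h = 0 := by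
      intro i
      rw [R503.CSD.lf, h0]
      simp
    rw [Fin.prod_univ_three, this, zero_mul, zero_mul, zero_div]
  have h4 : (ContinuousLinearMap.proj (R := ℝ) (φ := fun _ : Fin m => ℝ) k).comp
        (fderiv ℝ (R503.CSD.ratio x) h) = 0 := by
    refine h2.unique ?_
    rw [h3]
    exact hasFDerivAt_const _ _
  have h5 := congrArg (fun T : (Fin 3 → Fin 3 → ℝ) →L[ℝ] ℝ => T X) h4
  have h6 : fderiv ℝ (R503.CSD.ratio x) h X = Pi.single k 1 := hX
  simp only [ContinuousLinearMap.comp_apply, h6] at h5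
  simp at h5

lemma free_indep {m : ℕ} (hm : m < 3) {x : Fin m → Fin 3 → ℤ} (hx : Independent x) :
    FreePoints x := by
  classical
  have hx0 : ∀ k, x k ≠ 0 := fun k => R503.CSD.ne_zero_of_indep hx k
  -- three numbers at which the forms do not vanish
  set p : Fin m → Polynomial ℝ := fun k =>
    Polynomial.C ((x k 0 : ℤ) : ℝ) + Polynomial.C ((x k 1 : ℤ) : ℝ) * Polynomial.X
      + Polynomial.C ((x k 2 : ℤ) : ℝ) * Polynomial.X ^ 2 with hp
  have hp0 : ∀ k, p k ≠ 0 := by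
    intro k h0
    apply hx0 k
    have c0 := congrArg (fun q : Polynomial ℝ => q.eval 0) h0
    have c1 := congrArg (fun q : Polynomial ℝ => q.eval 1) h0
    have c2 := congrArg (fun q : Polynomial ℝ => q.eval (-1)) h0
    simp only [hp, Polynomial.eval_add, Polynomial.eval_mul, Polynomial.eval_C, Polynomial.eval_X,
      Polynomial.eval_pow, Polynomial.eval_zero] at c0 c1 c2
    have d0 : ((x k 0 : ℤ) : ℝ) = 0 := by linarith
    have d1 : ((x k 1 : ℤ) : ℝ) = 0 := by linarith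
    have d2 : ((x k 2 : ℤ) : ℝ) = 0 := by linarith
    funext j
    fin_cases j
    · exact_mod_cast d0
    · exact_mod_cast d1
    · exact_mod_cast d2
  have hfin : (⋃ k, ((p k).roots.toFinset : Set ℝ)).Finite :=
    Set.finite_iUnion fun k => Finset.finite_toSet _
  have hinf := hfin.infinite_compl
  set e := hinf.natEmbedding with he
  set t : Fin 3 → ℝ := fun i => (e i : ℝ) with ht
  have htinj : Function.Injective t := by
    intro i j hij
    have h1 := e.injective (Subtype.ext hij)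
    exact Fin.ext h1
  set h : Fin 3 → Fin 3 → ℝ := fun i j => t i ^ (j : ℕ) with hh
  have hd : R503.CSD.dt h ≠ 0 := by
    have h1 : (Matrix.of h) = Matrix.vandermonde t := by
      ext i j
      rw [Matrix.vandermonde_apply]
      rfl
    rw [R503.CSD.dt, h1]
    exact Matrix.det_vandermonde_ne_zero_iff.2 htinj
  refine R503.CSD.free_indep hm hx hd fun i k => ?_
  have h1 : R503.CSD.lf i (x k) h = (p k).eval (t i) := by
    rw [R503.CSD.lf, Fin.sum_univ_three]
    simp [hp, hh]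
    ring
  rw [h1]
  intro h2
  have h3 : t i ∈ (⋃ k, ((p k).roots.toFinset : Set ℝ)) := by
    refine Set.mem_iUnion.2 ⟨k, ?_⟩
    rw [Finset.mem_coe, Multiset.mem_toFinset, Polynomial.mem_roots (hp0 k)]
    exact h2
  exact (e i).2 h3

theorem result :
    -- 1. pairs for which the conjecture fails
    (∀ α β : ℝ, ¬ Littlewood α β → ∀ (m : ℕ) (x : Fin m → Fin 3 → ℤ), FreePoints x →
      ∃ T : Set (Fin m → ℝ), T ⊆ JointLimits α β x ∧ T ⊆ Positive m ∧ IsClosed T ∧ T.Nonempty ∧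
        -- analytic functions
        (∀ (V : Set (Fin m → ℝ)) (φ : (Fin m → ℝ) → ℝ), IsOpen V → IsConnected V →
          AnalyticOnNhd ℝ φ V → (V ∩ T).Nonempty → (∀ v ∈ V ∩ T, φ v = 0) → ∀ v ∈ V, φ v = 0) ∧
        -- algebraically independent entries
        (∀ K : Subfield ℝ, (K : Set ℝ).Countable → ∀ V : Set (Fin m → ℝ), IsOpen V →
          (V ∩ T).Nonempty → ∃ v ∈ V ∩ T, AlgebraicIndependent K v) ∧
        -- smooth functions
        (m < 3 → Independent x → ∀ (V : Set (Fin m → ℝ)) (φ : (Fin m → ℝ) → ℝ)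
          (r : WithTop ℕ∞), IsOpen V → ContDiffOn ℝ r φ V → (∀ v ∈ V ∩ T, φ v = 0) →
          ∀ q : ℕ, (q : WithTop ℕ∞) ≤ r → ∀ v ∈ V ∩ T, iteratedFDeriv ℝ q φ v = 0)) ∧
    -- 2. a criterion
    (∀ (α β : ℝ) (m : ℕ) (x : Fin m → Fin 3 → ℤ), FreePoints x →
      ∀ φ : ℕ → (Fin m → ℝ) → ℝ, (∀ n, AnalyticOnNhd ℝ (φ n) (Positive m)) →
        (∀ n, ∃ v ∈ Positive m, φ n v ≠ 0) →
        (∀ v ∈ JointLimits α β x ∩ Positive m, ∃ n, φ n v = 0) → Littlewood α β) ∧
    -- 3. the six points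
    FreePoints sixPoints ∧
    (∀ (α β : ℝ) (K : Subfield ℝ), (K : Set ℝ).Countable →
      (∀ v ∈ JointLimits α β sixPoints, ¬ AlgebraicIndependent K v) → Littlewood α β) ∧
    -- 4. more than six points
    (∀ (m : ℕ) (x : Fin m → Fin 3 → ℤ), 6 < m → ∃ P : MvPolynomial (Fin m) ℚ, P ≠ 0 ∧
      ∀ α β : ℝ, ∀ v ∈ JointLimits α β x, MvPolynomial.aeval v P = 0) ∧
    -- 5. free points, and limit points
    (∀ (m : ℕ) (x : Fin m → Fin 3 → ℤ), m < 3 → Independent x → FreePoints x) ∧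
    FreePoints basis ∧
    (∀ (α β : ℝ) (m : ℕ) (x : Fin m → Fin 3 → ℤ), ∀ v ∈ JointLimits α β x, ∀ k,
      MapClusterPt (v k) atTop (littlewood α β)) := by
  have hfree : ∀ (m : ℕ) (x : Fin m → Fin 3 → ℤ), FreePoints x → R503.CSD.Free x :=
    fun m x hx => hx
  have hmeet : ∀ {m : ℕ} {V S : Set (Fin m → ℝ)}, IsOpen V → (V ∩ closure S).Nonempty →
      (V ∩ S).Nonempty := by
    rintro m V S hV ⟨v, hv1, hv2⟩
    exact mem_closure_iff.1 hv2 V hV hv1
  have hbas : basis = R503.CSD.bas 3 := by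
    funext k j
    fin_cases k <;> fin_cases j <;> simp [basis, R503.CSD.bas]
  have hpos : ∀ {α β ν : ℝ} {M : Set (Matrix (Fin 3) (Fin 3) ℝ)}
      {g : Matrix (Fin 3) (Fin 3) ℝ} (D : LB.Dat α β ν M g) {m : ℕ} {x : Fin m → Fin 3 → ℤ}
      (hx : ∀ k, x k ≠ 0), closure (LB.AV x '' M) ⊆ Positive m := by
    intro α β ν M g D m x hx
    have h1 : closure (LB.AV x '' M) ⊆ ⋂ k : Fin m, {v : Fin m → ℝ | ν ≤ v k} := by
      refine closure_minimal ?_ (isClosed_iInter fun k => isClosed_le continuous_const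
        (continuous_apply k))
      rintro _ ⟨h, hh, rfl⟩
      exact Set.mem_iInter.2 fun k => LB.AV_pos D hx hh k
    intro v hv k
    exact D.hν.trans_le (Set.mem_iInter.1 (h1 hv) k)
  refine ⟨?_, ?_, LB.free_six, ?_, fun m x hm => sharp hm x, fun m x hm hx => free_indep hm hx,
    by rw [hbas]; exact R503.CSD.free_bas le_rfl, fun α β m x v hv k => cluster hv k⟩
  · intro α β hc m x hx
    obtain ⟨ν, M, g, D, hne⟩ := exists_dat hc
    have hx0 := free_nonzero hx
    refine ⟨closure (LB.AV x '' M), sub_JL D hx0, hpos D hx0, isClosed_closure,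
      (hne.image _).closure, ?_, ?_, ?_⟩
    · intro V φ hV hVc hφ hVT hz
      exact LB.thick D hx0 hx hV hVc.isPreconnected hφ (hmeet hV hVT)
        fun v hv => hz v ⟨hv.1, subset_closure hv.2⟩
    · intro K hK V hV hVT
      obtain ⟨v, hv1, -, hv2⟩ := LB.alg_indep D hx0 hx K hK hV (hmeet hV hVT)
      exact ⟨v, hv1, hv2⟩
    · intro hm hxi V φ r hV hφ hz q hq v hv
      have h1 := LB.flat D hm hxi hV hφ (fun v hv => hz v ⟨hv.1, subset_closure hv.2⟩) q hq
      by_contra hne0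
      have hc0 : ContinuousOn (iteratedFDeriv ℝ q φ) V := by
        have h2 := hφ.continuousOn_iteratedFDerivWithin hq hV.uniqueDiffOn
        refine h2.congr fun y hy => ?_
        exact (iteratedFDerivWithin_of_isOpen q hV hy).symm
      have h3 : ∀ᶠ y in 𝓝 v, iteratedFDeriv ℝ q φ y ≠ 0 :=
        (hc0.continuousAt (hV.mem_nhds hv.1)).eventually_ne hne0
      obtain ⟨y, ⟨hy1, hy2⟩, hy3⟩ := mem_closure_iff_nhds.1 hv.2 _
        (h3.and (hV.mem_nhds hv.1))
      exact hy1 (h1 y ⟨hy2, hy3⟩)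
  · intro α β m x hx φ hφ hne hz
    by_contra hc
    obtain ⟨ν, M, g, D, hMne⟩ := exists_dat hc
    have hx0 := free_nonzero hx
    obtain ⟨v, ⟨-, hv1⟩, hv2, hv3⟩ := LB.baire D hx0 hx hφ hne isOpen_univ
      (by rw [Set.univ_inter]; exact hMne.image _)
    obtain ⟨n, hn⟩ := hz v ⟨sub_JL D hx0 hv1, hv2⟩
    exact hv3 n hn
  · intro α β K hK hz
    by_contra hc
    obtain ⟨ν, M, g, D, hMne⟩ := exists_dat hc
    have hx : FreePoints sixPoints := LB.free_six
    have hx0 := free_nonzero hx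
    obtain ⟨v, ⟨-, hv1⟩, -, hv2⟩ := LB.alg_indep D hx0 hx K hK isOpen_univ
      (by rw [Set.univ_inter]; exact hMne.image _)
    exact hz v (sub_JL D hx0 hv1) hv2

end Pool.Agent.Results.MP_0ea415_nt.SixValues
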