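import Mathlib
import Pool.Agent.U787.LA6

/-! # MP_0ea415_nt: algebraic surfaces, rational subspaces and the good approximations of a counterexample

Let `p`, `r` be the nearest integers to `q α`, `q β` and let `q ⟨qα⟩ ⟨qβ⟩ ≥ ν > 0` for all `q ≥ 1`. A
number `q` is good if `q ⟨qα⟩ ⟨qβ⟩ ≤ Λ`, where `Λ ≥ 1` is fixed. There are constants `c, C > 0` which
depend only on `ν`, `Λ` and the degree `n`, such that for all such pairs and all `N ≥ 2`:

1. the number of good `q ≤ N` is between `c (log N) ^ 2` and `C (log N) ^ 2`;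
2. for every nonzero real form `P` of degree `n` in three variables at most `C log N` of the good
   `q ≤ N` satisfy `P (q, p, r) = 0`;
3. if `P (q, p, r)` is written as a form `G` in `q`, `qα - p`, `qβ - r`, then for all but at most
   `C log N` of the good `q ≤ N` its absolute value is at least half of the absolute value of each of
   the monomials of `G`;
4. for every `ℚ`-subspace `W` of `ℝ` which does not contain `1, α, β, αβ`, at most `C log N` of the
   good `q ≤ N` have `q ⟨qα⟩ ⟨qβ⟩ ∈ W`;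
5. there are at least `c log N` good `q ≤ N` for which the quotients of any two of the numbers
   `q ⟨qα⟩ ⟨qβ⟩` are irrational.

So the Littlewood conjecture holds for `(α, β)` if one of these statements fails.

The proof: put `x = - log ⟨qα⟩`, `y = - log ⟨qβ⟩`; a unit square of the plane contains only boundedly
many of the points `(x, y)` of good `q`. If a form vanishes at `(q, p, r)`, then two monomials of `G`
are comparable there, and `(x, y)` lies in one of boundedly many strips of bounded width. If the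
vectors `(q³, q² r, q² p, q p r)` of the `q` with values in `W` span the space, then `αβ, α, β, 1` are
in `W`; otherwise these `q` lie on a cubic surface.
-/

set_option autoImplicit false

namespace Pool.Agent.Results.MP_0ea415_nt.SurfacesAndClasses

open Finset

/-- `q ⟨qα⟩ ⟨qβ⟩` -/
noncomputable def littlewood (α β : ℝ) (q : ℕ) : ℝ :=
  (q : ℝ) * |(q : ℝ) * α - (round ((q : ℝ) * α) : ℝ)|
    * |(q : ℝ) * β - (round ((q : ℝ) * β) : ℝ)|

/-- The conclusion of the Littlewood conjecture for `(α, β)`. -/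
def Littlewood (α β : ℝ) : Prop :=
  ∀ ε : ℝ, 0 < ε → ∀ N : ℕ, ∃ q : ℕ, N ≤ q ∧ 0 < q ∧ littlewood α β q < ε

open Classical in
/-- The good `q ≤ N`: `1 ≤ q ≤ N` and `q ⟨qα⟩ ⟨qβ⟩ ≤ Λ`. -/
noncomputable def Good (α β Λ : ℝ) (N : ℕ) : Finset ℕ :=
  (Icc 1 N).filter (fun q => littlewood α β q ≤ Λ)

/-- The point `(q, p, r)`, `p` and `r` the nearest integers to `q α`, `q β`. -/
noncomputable def point (α β : ℝ) (q : ℕ) : Fin 3 → ℝ :=
  ![(q : ℝ), (round ((q : ℝ) * α) : ℝ), (round ((q : ℝ) * β) : ℝ)]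

/-- The values of the linear forms `q`, `q α - p`, `q β - r`. -/
noncomputable def forms (α β : ℝ) (q : ℕ) : Fin 3 → ℝ :=
  ![(q : ℝ), (q : ℝ) * α - (round ((q : ℝ) * α) : ℝ), (q : ℝ) * β - (round ((q : ℝ) * β) : ℝ)]

lemma good_eq (α β Λ : ℝ) (N : ℕ) : Good α β Λ N = Pool.Agent.U787.LA.Good α β Λ N := by
  ext q
  rw [Pool.Agent.U787.LA.mem_Good]
  unfold Good
  rw [mem_filter, mem_Icc, and_assoc]
  rfl

open Classical in
theorem uniform (ν Λ : ℝ) (hν : 0 < ν) (hΛ : 1 ≤ Λ) (n : ℕ) :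
    ∃ c C : ℝ, 0 < c ∧ 0 < C ∧ ∀ α β : ℝ, (∀ q : ℕ, 1 ≤ q → ν ≤ littlewood α β q) →
      ∀ N : ℕ, 2 ≤ N →
        -- 1. the number of good `q`
        (c * Real.log N ^ 2 ≤ (Good α β Λ N).card ∧
          ((Good α β Λ N).card : ℝ) ≤ C * Real.log N ^ 2) ∧
        -- 2. surfaces
        (∀ P : MvPolynomial (Fin 3) ℝ, P ≠ 0 → P.IsHomogeneous n →
          (((Good α β Λ N).filter
            (fun q => MvPolynomial.eval (point α β q) P = 0)).card : ℝ) ≤ C * Real.log N) ∧
        -- 3. large values of forms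
        (∀ G : MvPolynomial (Fin 3) ℝ, G.IsHomogeneous n →
          (((Good α β Λ N).filter (fun q => ¬ ∀ μ : Fin 3 →₀ ℕ,
            |MvPolynomial.coeff μ G * ∏ i, forms α β q i ^ μ i| / 2 ≤
              |MvPolynomial.eval (forms α β q) G|)).card : ℝ) ≤ C * Real.log N) ∧
        -- 4. subspaces
        (∀ W : Submodule ℚ ℝ, ¬ ((1 : ℝ) ∈ W ∧ α ∈ W ∧ β ∈ W ∧ α * β ∈ W) →
          (((Good α β Λ N).filter (fun q => littlewood α β q ∈ W)).card : ℝ) ≤
            C * Real.log N) ∧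
        -- 5. classes
        (∃ R : Finset ℕ, R ⊆ Good α β Λ N ∧ c * Real.log N ≤ R.card ∧
          ∀ q ∈ R, ∀ q' ∈ R, q ≠ q' → Irrational (littlewood α β q / littlewood α β q')) := by
  obtain ⟨c1, hc1, h1⟩ := Pool.Agent.U787.LA.lower hν
  obtain ⟨C1, hC1, h1'⟩ := Pool.Agent.U787.LA.upper hν hΛ
  obtain ⟨C2, hC2, h2⟩ := Pool.Agent.U787.LA.surfaces hν hΛ n
  obtain ⟨C3, hC3, h3⟩ := Pool.Agent.U787.LA.forms hν hΛ n
  obtain ⟨C4, hC4, h4⟩ := Pool.Agent.U787.LA.subspaces hν hΛ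
  obtain ⟨c5, hc5, h5⟩ := Pool.Agent.U787.LA.classes hν hΛ
  refine ⟨min c1 c5, C1 + C2 + C3 + C4, lt_min hc1 hc5, by positivity, ?_⟩
  intro α β H N hN
  have hN2 : (2 : ℝ) ≤ N := by exact_mod_cast hN
  have hlog0 : 0 < Real.log N := Real.log_pos (by linarith)
  have H' : Pool.Agent.U787.LA.Bad ν α β := H
  rw [good_eq]
  refine ⟨⟨?_, ?_⟩, ?_, ?_, ?_, ?_⟩
  · refine le_trans ?_ (h1 α β H' Λ hΛ N hN)
    exact mul_le_mul_of_nonneg_right (min_le_left _ _) (by positivity)
  · refine (h1' α β H' N hN).trans ?_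
    exact mul_le_mul_of_nonneg_right (by linarith) (by positivity)
  · intro P hP0 hP
    refine (h2 α β H' N hN P hP0 hP _ (filter_subset _ _)
      (fun q hq => (mem_filter.1 hq).2)).trans ?_
    exact mul_le_mul_of_nonneg_right (by linarith) hlog0.le
  · intro G hG
    refine (h3 α β H' N hN G hG _ (filter_subset _ _) (fun q hq => ?_)).trans ?_
    · have h := (mem_filter.1 hq).2
      push Not at h
      obtain ⟨μ, hμ⟩ := h
      refine ⟨μ, ?_, ?_⟩
      · rw [MvPolynomial.mem_support_iff]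
        intro h0
        rw [h0, zero_mul, abs_zero, zero_div] at hμ
        exact absurd hμ (not_lt.2 (abs_nonneg _))
      · have e : |MvPolynomial.coeff μ G * ∏ i, forms α β q i ^ μ i| / 2 =
            1 / 2 * (|MvPolynomial.coeff μ G| * Pool.Agent.U787.LA.mono α β q μ) := by
          rw [abs_mul, Fin.prod_univ_three]
          simp only [forms, Pool.Agent.U787.LA.mono, Pool.Agent.U787.LA.sd, abs_mul, abs_pow,
            Matrix.cons_val_zero, Matrix.cons_val_one, Matrix.cons_val, Nat.abs_cast]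
          ring
        rw [← e]
        exact hμ
    · exact mul_le_mul_of_nonneg_right (by linarith) hlog0.le
  · intro W hW
    refine (h4 α β H' N hN W hW _ (filter_subset _ _)
      (fun q hq => (mem_filter.1 hq).2)).trans ?_
    exact mul_le_mul_of_nonneg_right (by linarith) hlog0.le
  · obtain ⟨R, hR1, hR2, hR3⟩ := h5 α β H' N hN
    refine ⟨R, hR1, le_trans ?_ hR2, hR3⟩
    exact mul_le_mul_of_nonneg_right (min_le_right _ _) hlog0.le

lemma of_not {α β : ℝ} (h : ¬ Littlewood α β) :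
    ∃ ν : ℝ, 0 < ν ∧ ∀ q : ℕ, 1 ≤ q → ν ≤ littlewood α β q := by
  unfold Littlewood at h
  push Not at h
  obtain ⟨ε, hε, N, hN⟩ := h
  exact Pool.Agent.U787.LA.exists_bad (α := α) (β := β) hε hN

open Classical in
theorem result :
    -- A. the uniform statement
    (∀ ν Λ : ℝ, 0 < ν → 1 ≤ Λ → ∀ n : ℕ,
      ∃ c C : ℝ, 0 < c ∧ 0 < C ∧ ∀ α β : ℝ, (∀ q : ℕ, 1 ≤ q → ν ≤ littlewood α β q) →
        ∀ N : ℕ, 2 ≤ N →
          -- 1. the number of good `q`
          (c * Real.log N ^ 2 ≤ (Good α β Λ N).card ∧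
            ((Good α β Λ N).card : ℝ) ≤ C * Real.log N ^ 2) ∧
          -- 2. surfaces
          (∀ P : MvPolynomial (Fin 3) ℝ, P ≠ 0 → P.IsHomogeneous n →
            (((Good α β Λ N).filter
              (fun q => MvPolynomial.eval (point α β q) P = 0)).card : ℝ) ≤ C * Real.log N) ∧
          -- 3. large values of forms
          (∀ G : MvPolynomial (Fin 3) ℝ, G.IsHomogeneous n →
            (((Good α β Λ N).filter (fun q => ¬ ∀ μ : Fin 3 →₀ ℕ,
              |MvPolynomial.coeff μ G * ∏ i, forms α β q i ^ μ i| / 2 ≤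
                |MvPolynomial.eval (forms α β q) G|)).card : ℝ) ≤ C * Real.log N) ∧
          -- 4. subspaces
          (∀ W : Submodule ℚ ℝ, ¬ ((1 : ℝ) ∈ W ∧ α ∈ W ∧ β ∈ W ∧ α * β ∈ W) →
            (((Good α β Λ N).filter (fun q => littlewood α β q ∈ W)).card : ℝ) ≤
              C * Real.log N) ∧
          -- 5. classes
          (∃ R : Finset ℕ, R ⊆ Good α β Λ N ∧ c * Real.log N ≤ R.card ∧
            ∀ q ∈ R, ∀ q' ∈ R, q ≠ q' → Irrational (littlewood α β q / littlewood α β q'))) ∧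
    -- B. criteria for the Littlewood conjecture
    (∀ α β Λ : ℝ, 1 ≤ Λ →
      -- many good `q` on surfaces of bounded degree
      (∀ n : ℕ, (∀ C : ℝ, ∃ N : ℕ, 2 ≤ N ∧ ∃ P : MvPolynomial (Fin 3) ℝ, P ≠ 0 ∧
        P.IsHomogeneous n ∧ C * Real.log N < (((Good α β Λ N).filter
          (fun q => MvPolynomial.eval (point α β q) P = 0)).card : ℝ)) → Littlewood α β) ∧
      -- many values in rational subspaces
      ((∀ C : ℝ, ∃ N : ℕ, 2 ≤ N ∧ ∃ W : Submodule ℚ ℝ,
        ¬ ((1 : ℝ) ∈ W ∧ α ∈ W ∧ β ∈ W ∧ α * β ∈ W) ∧ C * Real.log N <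
          (((Good α β Λ N).filter (fun q => littlewood α β q ∈ W)).card : ℝ)) →
        Littlewood α β) ∧
      -- few classes of values
      ((∀ c : ℝ, 0 < c → ∃ N : ℕ, 2 ≤ N ∧ ∀ R : Finset ℕ, R ⊆ Good α β Λ N →
        (∀ q ∈ R, ∀ q' ∈ R, q ≠ q' → Irrational (littlewood α β q / littlewood α β q')) →
          (R.card : ℝ) < c * Real.log N) → Littlewood α β)) := by
  refine ⟨fun ν Λ hν hΛ n => uniform ν Λ hν hΛ n, fun α β Λ hΛ => ⟨fun n h => ?_, fun h => ?_,
    fun h => ?_⟩⟩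
  · by_contra hcon
    obtain ⟨ν, hν, H⟩ := of_not hcon
    obtain ⟨c, C, -, -, hu⟩ := uniform ν Λ hν hΛ n
    obtain ⟨N, hN, P, hP0, hP, hlt⟩ := h C
    exact absurd ((hu α β H N hN).2.1 P hP0 hP) (not_le.2 hlt)
  · by_contra hcon
    obtain ⟨ν, hν, H⟩ := of_not hcon
    obtain ⟨c, C, -, -, hu⟩ := uniform ν Λ hν hΛ 0
    obtain ⟨N, hN, W, hW, hlt⟩ := h C
    exact absurd ((hu α β H N hN).2.2.2.1 W hW) (not_le.2 hlt)
  · by_contra hcon
    obtain ⟨ν, hν, H⟩ := of_not hcon
    obtain ⟨c, C, hc, -, hu⟩ := uniform ν Λ hν hΛ 0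
    obtain ⟨N, hN, hR⟩ := h c hc
    obtain ⟨R, hR1, hR2, hR3⟩ := (hu α β H N hN).2.2.2.2
    exact absurd hR2 (not_le.2 (hR R hR1 hR3))

end Pool.Agent.Results.MP_0ea415_nt.SurfacesAndClasses
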